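import Pool.Agent.N589.LL.Tasks

/-!
Project LL (helper589), LL/11: `GL_2(F_2[t])` acts on the tree of `GL_2(K_∞)` with a half line as
quotient (helper896).
-/

open scoped WithZero Polynomial MatrixGroups Topology

noncomputable section

namespace N589LL

namespace Tree

/-- the completion at infinity -/
abbrev F : Type := Kv none

/-- the valuation at infinity -/
abbrev vI : Valuation F ℤᵐ⁰ := val none

/-- polynomials in the completion -/
def io : A →+* F := (incl none).comp (algebraMap A K)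

lemma pv_poly (p : A) (hp : p ≠ 0) :
    pv none (algebraMap A K p) = WithZero.exp (p.natDegree : ℤ) := by
  classical
  exact @RatFunc.inftyValuation.polynomial (ZMod 2) _ _ p hp

lemma v_io (p : A) (hp : p ≠ 0) : vI (io p) = WithZero.exp (p.natDegree : ℤ) := by
  change val none (incl none (algebraMap A K p)) = _
  rw [val_incl, pv_poly p hp]

lemma one_le_v_io (p : A) (hp : p ≠ 0) : 1 ≤ vI (io p) := by
  rw [v_io p hp, ← WithZero.exp_zero, WithZero.exp_le_exp]
  omega

lemma v_tInf : vI (tInf : F) = WithZero.exp 1 := by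
  classical
  change val none (incl none RatFunc.X) = _
  rw [val_incl]
  exact @RatFunc.inftyValuation.X (ZMod 2) _ _

lemma v_tInf_zpow (n : ℤ) : vI ((tInf ^ n : Fˣ) : F) = WithZero.exp n := by
  rw [Units.val_zpow_eq_zpow_val, map_zpow₀, v_tInf, ← WithZero.exp_zsmul]
  simp

lemma exists_poly (hT : TaskLocTop) (x : F) : ∃ p : A, vI (x - io p) < 1 := by
  obtain ⟨y, hy⟩ := (hT none).2.1 x 1
  have hd : y.denom ≠ 0 := y.denom_ne_zero
  have hdK : algebraMap A K y.denom ≠ 0 := by
    simpa using hd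
  refine ⟨y.num / y.denom, ?_⟩
  have e1 : y - algebraMap A K (y.num / y.denom) =
      algebraMap A K (y.num % y.denom) / algebraMap A K y.denom := by
    have h1 := EuclideanDomain.div_add_mod y.num y.denom
    have h2 := congrArg (algebraMap A K) h1
    rw [map_add, map_mul] at h2
    have h3 := RatFunc.num_div_denom y
    rw [eq_div_iff hdK, sub_mul]
    have h4 : y * algebraMap A K y.denom = algebraMap A K y.num := ((div_eq_iff hdK).1 h3).symm
    rw [h4, ← h2]
    ring
  have h5 : pv none (y - algebraMap A K (y.num / y.denom)) < 1 := by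
    rw [e1, map_div₀, pv_poly _ hd]
    by_cases h0 : y.num % y.denom = 0
    · rw [h0, map_zero, map_zero, zero_div]
      exact zero_lt_one
    · rw [pv_poly _ h0, ← WithZero.exp_sub, ← WithZero.exp_zero, WithZero.exp_lt_exp]
      have h6 := Polynomial.degree_mod_lt y.num hd
      have h7 := Polynomial.natDegree_lt_natDegree h0 h6
      omega
  have e2 : x - io (y.num / y.denom) =
      (x - incl none y) + incl none (y - algebraMap A K (y.num / y.denom)) := by
    rw [map_sub]
    change x - incl none (algebraMap A K _) = _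
    ring
  rw [e2]
  refine lt_of_le_of_lt (Valuation.map_add _ _ _) (max_lt ?_ ?_)
  · refine lt_of_le_of_lt hy ?_
    rw [← WithZero.exp_zero, WithZero.exp_lt_exp]
    norm_num
  · rw [vI, val_incl]
    exact h5

/-- the statement of the reduction -/
def Good (g : Gv none) : Prop := ∃ (γ : GL (Fin 2) A) (m : ℕ) (k : Gv none) (z : (Kv none)ˣ),
  k ∈ Cv none ∧ g = glA γ * dg (tInf ^ m) 1 * k * sca z

lemma sca_comm (z : Fˣ) (g : GL (Fin 2) F) : sca z * g = g * sca z := by
  apply Units.ext
  ext i j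
  simp only [Units.val_mul, Matrix.mul_apply, Fin.sum_univ_two, sca, bor]
  fin_cases i <;> fin_cases j <;> simp [mul_comm]

lemma sca_mul (a b : Fˣ) : sca (a * b) = sca a * (sca b : GL (Fin 2) F) := by
  apply Units.ext
  ext i j
  simp only [Units.val_mul, Matrix.mul_apply, Fin.sum_univ_two, sca, bor]
  fin_cases i <;> fin_cases j <;> simp

lemma sca_one : (sca 1 : GL (Fin 2) F) = 1 := by
  apply Units.ext
  ext i j
  simp only [sca, bor]
  fin_cases i <;> fin_cases j <;> simp

lemma sca_mul_inv (z : Fˣ) : (sca z : GL (Fin 2) F) * sca z⁻¹ = 1 := by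
  rw [← sca_mul, mul_inv_cancel, sca_one]

lemma Good.left {g : Gv none} (γ : GL (Fin 2) A) (h : Good (glA γ * g)) : Good g := by
  obtain ⟨γ', m, k, z, hk, he⟩ := h
  refine ⟨γ⁻¹ * γ', m, k, z, hk, ?_⟩
  rw [map_mul, map_inv]
  have : g = (glA γ)⁻¹ * (glA γ * g) := by group
  rw [this, he]
  group

lemma Good.right {g : Gv none} (k : Gv none) (hk : k ∈ Cv none) (h : Good (g * k)) : Good g := by
  obtain ⟨γ, m, k', z, hk', he⟩ := h
  refine ⟨γ, m, k' * k⁻¹, z, mul_mem hk' (inv_mem hk), ?_⟩
  have h1 : g = (g * k) * k⁻¹ := by group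
  rw [h1, he, mul_assoc (_ * k'), sca_comm]
  group

lemma Good.scal {g : Gv none} (z : Fˣ) (h : Good (g * sca z)) : Good g := by
  obtain ⟨γ, m, k', z', hk', he⟩ := h
  refine ⟨γ, m, k', z' * z⁻¹, hk', ?_⟩
  have h1 : g = (g * sca z) * sca z⁻¹ := by rw [mul_assoc, sca_mul_inv, mul_one]
  rw [h1, he, sca_mul, mul_assoc _ (sca z')]

/-- the matrices `(t^n, y; 0, 1)` -/
def M (n : ℤ) (y : F) : Gv none := bor (tInf ^ n) 1 y

lemma glA_upr (p : A) : glA (upr p) = (upr (io p) : Gv none) := by
  apply Units.ext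
  ext i j
  fin_cases i <;> fin_cases j <;> simp [glA, upr, io]

lemma glA_wm : glA (⟨!![0, 1; 1, 0], !![0, 1; 1, 0], by simp [Matrix.one_fin_two],
    by simp [Matrix.one_fin_two]⟩ : GL (Fin 2) A) = (wm : Gv none) := by
  apply Units.ext
  ext i j
  fin_cases i <;> fin_cases j <;> simp [glA, wm]

lemma wm_mem : (wm : Gv none) ∈ Cv none := by
  constructor
  · intro i j
    fin_cases i <;> fin_cases j <;> simp [wm]
  · intro i j
    change vI ((wm : GL (Fin 2) F).inv i j) ≤ 1
    fin_cases i <;> fin_cases j <;> simp [wm]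

lemma upr_mem (c : F) (hc : vI c ≤ 1) : (upr c : Gv none) ∈ Cv none := by
  constructor
  · intro i j
    fin_cases i <;> fin_cases j <;> simp [upr, hc]
  · intro i j
    change vI ((upr c : GL (Fin 2) F).inv i j) ≤ 1
    fin_cases i <;> fin_cases j <;> simp [upr, hc]

lemma lwr_mem (c : F) (hc : vI c ≤ 1) : (lwr c : Gv none) ∈ Cv none := by
  constructor
  · intro i j
    fin_cases i <;> fin_cases j <;> simp [lwr, hc]
  · intro i j
    change vI ((lwr c : GL (Fin 2) F).inv i j) ≤ 1
    fin_cases i <;> fin_cases j <;> simp [lwr, hc]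

lemma dg_mem (u : Fˣ) (hu : vI (u : F) = 1) : (dg u 1 : Gv none) ∈ Cv none := by
  constructor
  · intro i j
    fin_cases i <;> fin_cases j <;> simp [dg, bor, hu]
  · intro i j
    change vI ((dg u 1 : GL (Fin 2) F).inv i j) ≤ 1
    fin_cases i <;> fin_cases j <;> simp [dg, bor, hu]

lemma good_dg (m : ℕ) : Good (dg (tInf ^ m) 1) :=
  ⟨1, m, 1, 1, one_mem _, by rw [map_one, sca_one, one_mul, mul_one, mul_one]⟩

lemma good_M_zero (n : ℤ) : Good (M n 0) := by
  rcases le_or_gt 0 n with hn | hn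
  · obtain ⟨m, rfl⟩ := Int.eq_ofNat_of_zero_le hn
    have : M (m : ℤ) 0 = dg (tInf ^ m) 1 := by
      unfold M dg
      rw [zpow_natCast]
    rw [this]
    exact good_dg m
  · obtain ⟨m, hm⟩ := Int.eq_ofNat_of_zero_le (show 0 ≤ -n by omega)
    refine Good.left _ (?_ : Good (glA (⟨!![0, 1; 1, 0], !![0, 1; 1, 0],
      by simp [Matrix.one_fin_two], by simp [Matrix.one_fin_two]⟩ : GL (Fin 2) A) * M n 0))
    rw [glA_wm]
    refine Good.right wm wm_mem ?_
    refine Good.scal (tInf ^ m) ?_
    have : wm * M n 0 * wm * sca (tInf ^ m) = dg (tInf ^ m) 1 := by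
      have e : n = -(m : ℤ) := by omega
      apply Units.ext
      ext i j
      simp only [Units.val_mul, Matrix.mul_apply, Fin.sum_univ_two, sca, bor, M, wm, dg, e]
      have h0 : (tInf : F) ≠ 0 := tInf.ne_zero
      fin_cases i <;> fin_cases j <;> simp [h0]
    rw [this]
    exact good_dg m

lemma good_M_small (n : ℤ) (y : F) (hy : vI y ≤ WithZero.exp n) : Good (M n y) := by
  have hv := v_tInf_zpow n
  set a : Fˣ := tInf ^ n with ha
  refine Good.right (upr (-((a⁻¹ : Fˣ) : F) * y)) (upr_mem _ ?_) ?_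
  · rw [map_mul, Valuation.map_neg, Units.val_inv_eq_inv_val, map_inv₀, hv,
      ← WithZero.exp_neg]
    calc WithZero.exp (-n) * vI y ≤ WithZero.exp (-n) * WithZero.exp n :=
          mul_le_mul_right hy _
      _ = 1 := by rw [← WithZero.exp_add]; simp
  · have : M n y * upr (-((a⁻¹ : Fˣ) : F) * y) = M n 0 := by
      unfold M
      rw [← ha]
      apply Units.ext
      ext i j
      simp only [Units.val_mul, Matrix.mul_apply, Fin.sum_univ_two, bor, upr]
      fin_cases i <;> fin_cases j <;> simp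
    rw [this]
    exact good_M_zero n

lemma good_bor (a d : Fˣ) (x : F) (n : ℤ) (hn : vI (a : F) = WithZero.exp n * vI (d : F))
    (h : ∀ y, Good (M n y)) : Good (bor a d x) := by
  have hv := v_tInf_zpow n
  set b : Fˣ := tInf ^ n with hb
  have hvd : vI (d : F) ≠ 0 := by simp
  have hu : vI ((a * d⁻¹ * b⁻¹ : Fˣ) : F) = 1 := by
    rw [Units.val_mul, Units.val_mul, map_mul, map_mul, hn, Units.val_inv_eq_inv_val,
      Units.val_inv_eq_inv_val, map_inv₀, map_inv₀, hv, mul_assoc (WithZero.exp n),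
      mul_inv_cancel₀ hvd, mul_one, mul_inv_cancel₀ WithZero.exp_ne_zero]
  refine Good.scal d⁻¹ ?_
  refine Good.right (dg (a * d⁻¹ * b⁻¹)⁻¹ 1) ?_ ?_
  · apply dg_mem
    rw [Units.val_inv_eq_inv_val, map_inv₀, hu, inv_one]
  · have e : bor a d x * sca d⁻¹ * dg (a * d⁻¹ * b⁻¹)⁻¹ 1 = M n (x * ((d⁻¹ : Fˣ) : F)) := by
      unfold M
      rw [← hb]
      apply Units.ext
      ext i j
      have hd : (d : F) ≠ 0 := d.ne_zero
      have ha : (a : F) ≠ 0 := a.ne_zero
      simp only [Units.val_mul, Matrix.mul_apply, Fin.sum_univ_two, bor, sca, dg]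
      fin_cases i <;> fin_cases j <;> simp
      field_simp
    rw [e]
    exact h _

lemma good_M_red (hT : TaskLocTop) (n : ℤ) (h : ∀ y, vI y < 1 → Good (M n y)) (y : F) :
    Good (M n y) := by
  obtain ⟨p, hp⟩ := exists_poly hT y
  refine Good.left (upr (-p)) ?_
  have e : glA (upr (-p)) * M n y = M n (y - io p) := by
    rw [glA_upr]
    unfold M
    apply Units.ext
    ext i j
    simp only [Units.val_mul, Matrix.mul_apply, Fin.sum_univ_two, bor, upr]
    fin_cases i <;> fin_cases j <;> simp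
    ring
  rw [e]
  exact h _ hp

lemma good_M (hT : TaskLocTop) : ∀ (N : ℕ) (n : ℤ), -1 - n ≤ N → ∀ y, Good (M n y) := by
  intro N
  induction N with
  | zero =>
    intro n hn
    apply good_M_red hT
    intro y hy
    apply good_M_small
    by_cases h0 : vI y = 0
    · rw [h0]; exact zero_le
    · obtain ⟨e, he⟩ : ∃ e : ℤ, vI y = WithZero.exp e := ⟨WithZero.log (vI y), (WithZero.exp_log h0).symm⟩
      rw [he, ← WithZero.exp_zero, WithZero.exp_lt_exp] at hy
      rw [he, WithZero.exp_le_exp]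
      push_cast at hn
      omega
  | succ N ih =>
    intro n hn
    apply good_M_red hT
    intro y hy
    by_cases hs : vI y ≤ WithZero.exp n
    · exact good_M_small n y hs
    push Not at hs
    have h0 : vI y ≠ 0 := by
      intro h
      rw [h] at hs
      exact absurd hs (not_lt.2 zero_le)
    have hy0 : y ≠ 0 := by
      rintro rfl
      exact h0 (map_zero _)
    obtain ⟨e, he⟩ : ∃ e : ℤ, vI y = WithZero.exp e :=
      ⟨WithZero.log (vI y), (WithZero.exp_log h0).symm⟩
    rw [he, ← WithZero.exp_zero, WithZero.exp_lt_exp] at hy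
    rw [he, WithZero.exp_lt_exp] at hs
    have hv := v_tInf_zpow n
    set b : Fˣ := tInf ^ n with hb
    set yu : Fˣ := Units.mk0 y hy0 with hyu
    refine Good.left _ (?_ : Good (glA (⟨!![0, 1; 1, 0], !![0, 1; 1, 0],
      by simp [Matrix.one_fin_two], by simp [Matrix.one_fin_two]⟩ : GL (Fin 2) A) * M n y))
    rw [glA_wm]
    refine Good.right (lwr (-((b * yu⁻¹ : Fˣ) : F))) ?_ ?_
    · apply lwr_mem
      rw [Valuation.map_neg, Units.val_mul, map_mul, hv, Units.val_inv_eq_inv_val, map_inv₀,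
        hyu, Units.val_mk0, he, ← WithZero.exp_neg, ← WithZero.exp_add, ← WithZero.exp_zero,
        WithZero.exp_le_exp]
      omega
    · have e1 : wm * M n y * lwr (-((b * yu⁻¹ : Fˣ) : F)) = bor (-(b * yu⁻¹)) yu 1 := by
        unfold M
        rw [← hb]
        apply Units.ext
        ext i j
        simp only [Units.val_mul, Matrix.mul_apply, Fin.sum_univ_two, bor, lwr, wm]
        fin_cases i <;> fin_cases j <;> simp [hyu]
        field_simp
        ring
      rw [e1]
      apply good_bor _ _ _ (n - 2 * e)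
      · rw [Units.val_neg, Valuation.map_neg, Units.val_mul, map_mul, hv,
          Units.val_inv_eq_inv_val, map_inv₀, hyu, Units.val_mk0, he, ← WithZero.exp_neg,
          ← WithZero.exp_add, ← WithZero.exp_add]
        congr 1
        ring
      · apply ih
        push_cast at hn
        omega

lemma bor_of_lower (g : GL (Fin 2) F) (h : g.val 1 0 = 0) : ∃ (a d : Fˣ) (x : F), g = bor a d x := by
  have hdet : g.val.det ≠ 0 := by
    have := g.isUnit
    rw [Matrix.isUnit_iff_isUnit_det] at this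
    exact this.ne_zero
  rw [Matrix.det_fin_two, h, mul_zero, sub_zero] at hdet
  refine ⟨Units.mk0 _ (left_ne_zero_of_mul hdet), Units.mk0 _ (right_ne_zero_of_mul hdet),
    g.val 0 1, ?_⟩
  apply Units.ext
  ext i j
  simp only [bor]
  fin_cases i <;> fin_cases j <;> simp
  exact h

lemma good_of_bor (hT : TaskLocTop) (a d : Fˣ) (x : F) : Good (bor a d x) := by
  have ha : vI (a : F) ≠ 0 := by simp
  have hd : vI (d : F) ≠ 0 := by simp
  apply good_bor a d x (WithZero.log (vI (a : F)) - WithZero.log (vI (d : F)))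
  · rw [WithZero.exp_sub, WithZero.exp_log ha, WithZero.exp_log hd, div_mul_cancel₀ _ hd]
  · exact good_M hT _ _ (Int.self_le_toNat _)

lemma good_of_le (hT : TaskLocTop) (g : GL (Fin 2) F) (h : vI (g.val 1 0) ≤ vI (g.val 1 1)) :
    Good g := by
  have hdet : g.val.det ≠ 0 := by
    have := g.isUnit
    rw [Matrix.isUnit_iff_isUnit_det] at this
    exact this.ne_zero
  rw [Matrix.det_fin_two] at hdet
  have hd : g.val 1 1 ≠ 0 := by
    intro h1
    rw [h1, map_zero] at h
    have h2 : g.val 1 0 = 0 := by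
      rw [← map_eq_zero vI]
      exact le_antisymm h zero_le
    rw [h1, h2] at hdet
    simp at hdet
  have hvd : vI (g.val 1 1) ≠ 0 := by simpa using hd
  refine Good.right (lwr (-(g.val 1 0 / g.val 1 1))) ?_ ?_
  · apply lwr_mem
    rw [Valuation.map_neg, map_div₀]
    exact div_le_one_of_le₀ h zero_le
  · obtain ⟨a, d, x, he⟩ := bor_of_lower (g * lwr (-(g.val 1 0 / g.val 1 1))) (by
      simp only [Units.val_mul, Matrix.mul_apply, Fin.sum_univ_two, lwr]
      simp
      field_simp
      ring)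
    rw [he]
    exact good_of_bor hT a d x

lemma good_all (hT : TaskLocTop) (g : GL (Fin 2) F) : Good g := by
  rcases le_total (vI (g.val 1 0)) (vI (g.val 1 1)) with h | h
  · exact good_of_le hT g h
  · refine Good.right wm wm_mem ?_
    apply good_of_le hT
    simp only [Units.val_mul, Matrix.mul_apply, Fin.sum_univ_two, wm]
    simpa using h

/-! ### uniqueness -/

/-- sup norm of a row vector -/
def nr (x : Fin 2 → F) : ℤᵐ⁰ := max (vI (x 0)) (vI (x 1))

lemma nr_mul_le (x : Fin 2 → F) (k : Gv none) (hk : k ∈ Cv none) :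
    nr (Matrix.vecMul x k.val) ≤ nr x := by
  have h : ∀ j, vI (Matrix.vecMul x k.val j) ≤ nr x := by
    intro j
    simp only [Matrix.vecMul, dotProduct, Fin.sum_univ_two]
    refine (Valuation.map_add _ _ _).trans (max_le ?_ ?_)
    · rw [map_mul]
      exact (mul_le_of_le_one_right' (hk.1 0 j)).trans (le_max_left _ _)
    · rw [map_mul]
      exact (mul_le_of_le_one_right' (hk.1 1 j)).trans (le_max_right _ _)
  exact max_le (h 0) (h 1)

lemma nr_mul (x : Fin 2 → F) (k : Gv none) (hk : k ∈ Cv none) :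
    nr (Matrix.vecMul x k.val) = nr x := by
  apply le_antisymm (nr_mul_le x k hk)
  have h := nr_mul_le (Matrix.vecMul x k.val) k⁻¹ (inv_mem hk)
  rw [Matrix.vecMul_vecMul] at h
  have e : k.val * k⁻¹.val = 1 := k.mul_inv
  rw [e, Matrix.vecMul_one] at h
  exact h

lemma nr_sca (x : Fin 2 → F) (z : Fˣ) :
    nr (Matrix.vecMul x (sca z : Gv none).val) = nr x * vI (z : F) := by
  unfold nr
  simp only [Matrix.vecMul, dotProduct, Fin.sum_univ_two, sca, bor]
  simp only [Matrix.of_apply, Matrix.cons_val', Matrix.cons_val_zero, Matrix.cons_val_fin_one,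
    Matrix.cons_val_one, mul_zero, add_zero, zero_add, map_mul]
  rw [max_mul_mul_right]

/-- polynomial row vectors -/
def row (ξ : Fin 2 → A) : Fin 2 → F := fun i => io (ξ i)

lemma row_mul (ξ : Fin 2 → A) (γ : GL (Fin 2) A) :
    Matrix.vecMul (row ξ) (glA γ).val = row (Matrix.vecMul ξ γ.val) := by
  funext j
  simp only [Matrix.vecMul, dotProduct, Fin.sum_univ_two, row, map_add, map_mul]
  rfl

lemma vecMul_ne (ξ : Fin 2 → A) (hξ : ξ ≠ 0) (γ : GL (Fin 2) A) : Matrix.vecMul ξ γ.val ≠ 0 := by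
  intro h
  apply hξ
  have h1 := congrArg (fun x => Matrix.vecMul x γ⁻¹.val) h
  simp only [Matrix.vecMul_vecMul, Matrix.zero_vecMul] at h1
  have e : γ.val * γ⁻¹.val = 1 := γ.mul_inv
  rw [e, Matrix.vecMul_one] at h1
  exact h1

lemma one_le_nr (ξ : Fin 2 → A) (hξ : ξ ≠ 0) (m : ℕ) :
    1 ≤ nr (Matrix.vecMul (row ξ) (dg (tInf ^ m) 1 : Gv none).val) := by
  have hv := v_tInf_zpow m
  rw [zpow_natCast] at hv
  have e0 : Matrix.vecMul (row ξ) (dg (tInf ^ m) 1 : Gv none).val 0 = io (ξ 0) * ((tInf ^ m : Fˣ) : F) := by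
    simp only [Matrix.vecMul, dotProduct, Fin.sum_univ_two, dg, bor, row]
    simp
  have e1 : Matrix.vecMul (row ξ) (dg (tInf ^ m) 1 : Gv none).val 1 = io (ξ 1) := by
    simp only [Matrix.vecMul, dotProduct, Fin.sum_univ_two, dg, bor, row]
    simp
  unfold nr
  rw [e0, e1, map_mul, hv]
  by_cases h0 : ξ 0 = 0
  · have h1 : ξ 1 ≠ 0 := by
      intro h1
      apply hξ
      funext i
      fin_cases i
      · exact h0
      · exact h1
    exact (one_le_v_io _ h1).trans (le_max_right _ _)
  · refine le_trans ?_ (le_max_left _ _)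
    refine one_le_mul_of_one_le_of_one_le (one_le_v_io _ h0) ?_
    rw [← WithZero.exp_zero, WithZero.exp_le_exp]
    omega

lemma e1_nr (m : ℕ) :
    nr (Matrix.vecMul (row ![0, 1]) (dg (tInf ^ m) 1 : Gv none).val) = 1 := by
  unfold nr
  simp only [Matrix.vecMul, dotProduct, Fin.sum_univ_two, dg, bor, row]
  simp

lemma v_det_io (p : A) (hp : IsUnit p) : vI (io p) = 1 := by
  obtain ⟨q, hq⟩ := hp.exists_right_inv
  have hp0 : p ≠ 0 := hp.ne_zero
  have hq0 : q ≠ 0 := by rintro rfl; simp at hq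
  have h1 := one_le_v_io p hp0
  have h2 := one_le_v_io q hq0
  have h3 : vI (io p) * vI (io q) = 1 := by rw [← map_mul, ← map_mul, hq, map_one, map_one]
  apply le_antisymm _ h1
  calc vI (io p) ≤ vI (io p) * vI (io q) := le_mul_of_one_le_right' h2
    _ = 1 := h3

lemma v_det_mem (k : Gv none) (hk : k ∈ Cv none) : vI k.val.det = 1 := by
  have h : ∀ k : Gv none, k ∈ Cv none → vI k.val.det ≤ 1 := by
    intro k hk
    rw [Matrix.det_fin_two]
    refine (Valuation.map_sub _ _ _).trans (max_le ?_ ?_)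
    · rw [map_mul]; exact mul_le_one' (hk.1 0 0) (hk.1 1 1)
    · rw [map_mul]; exact mul_le_one' (hk.1 0 1) (hk.1 1 0)
  have h1 := h k hk
  have h2 := h k⁻¹ (inv_mem hk)
  have e : k.val.det * k⁻¹.val.det = 1 := by
    rw [← Matrix.det_mul]
    have e : k.val * k⁻¹.val = 1 := k.mul_inv
    rw [e, Matrix.det_one]
  have h3 : vI k.val.det * vI k⁻¹.val.det = 1 := by rw [← map_mul, e, map_one]
  apply le_antisymm h1
  calc (1 : ℤᵐ⁰) = vI k.val.det * vI k⁻¹.val.det := h3.symm
    _ ≤ vI k.val.det := mul_le_of_le_one_right' h2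

lemma det_dg (m : ℕ) : vI (dg (tInf ^ m) 1 : Gv none).val.det = WithZero.exp (m : ℤ) := by
  have hv := v_tInf_zpow m
  rw [zpow_natCast] at hv
  rw [Matrix.det_fin_two]
  simp only [dg, bor]
  simpa using hv

lemma uniq (γ : GL (Fin 2) A) (m m' : ℕ) (k : Gv none) (z : (Kv none)ˣ) (hk : k ∈ Cv none)
    (he : dg (tInf ^ m') 1 = glA γ * dg (tInf ^ m) 1 * k * sca z) : m' = m := by
  have hne : (![0, 1] : Fin 2 → A) ≠ 0 := by
    intro h
    have := congrFun h 1
    simp at this
  -- first inequality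
  have h1 : vI (z : F) ≤ 1 := by
    have h2 := congrArg (fun g : Gv none => nr (Matrix.vecMul (row ![0, 1]) g.val)) he
    simp only [Units.val_mul, ← Matrix.vecMul_vecMul] at h2
    rw [e1_nr, nr_sca, nr_mul _ _ hk, row_mul] at h2
    have h3 := one_le_nr _ (vecMul_ne _ hne γ) m
    rw [h2]
    exact le_mul_of_one_le_left' h3
  have h2 : 1 ≤ vI (z : F) := by
    have he' : glA γ⁻¹ * dg (tInf ^ m') 1 = dg (tInf ^ m) 1 * k * sca z := by
      rw [he, map_inv]; group
    have h2 := congrArg (fun g : Gv none => nr (Matrix.vecMul (row ![0, 1]) g.val)) he'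
    simp only [Units.val_mul, ← Matrix.vecMul_vecMul] at h2
    rw [nr_sca, nr_mul _ _ hk, e1_nr, row_mul, one_mul] at h2
    have h3 := one_le_nr _ (vecMul_ne _ hne γ⁻¹) m'
    rw [← h2]
    exact h3
  have h3 : vI (z : F) = 1 := le_antisymm h1 h2
  have h4 := congrArg (fun g : Gv none => vI g.val.det) he
  simp only [Units.val_mul, Matrix.det_mul, map_mul] at h4
  rw [det_dg, det_dg, v_det_mem k hk] at h4
  have h5 : vI (glA γ).val.det = 1 := by
    have e : (glA γ).val.det = io γ.val.det := by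
      rw [Matrix.det_fin_two, Matrix.det_fin_two, map_sub, map_mul, map_mul]
      rfl
    rw [e]
    apply v_det_io
    have := γ.isUnit
    rwa [Matrix.isUnit_iff_isUnit_det] at this
  have h6 : vI (sca z : Gv none).val.det = 1 := by
    rw [Matrix.det_fin_two]
    simp only [sca, bor]
    simp [h3]
  rw [h5, h6, one_mul, mul_one, mul_one] at h4
  have h7 := WithZero.exp_injective h4
  exact_mod_cast h7

end Tree

theorem TaskTree_proof (hT : TaskLocTop) : TaskTree :=
  ⟨fun g => Tree.good_all hT g, fun γ m m' k z hk he => Tree.uniq γ m m' k z hk he⟩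

end N589LL
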